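import Pool.Agent.Q153.SpanTwo.Defs
import Pool.Agent.Q153.SpanTwo.Phi

/-!
# Signed two-element spanning sets in `ℤ_2 × ℤ_{2k}`
-/

set_option autoImplicit false

namespace Pool.Agent.Results.MP_26ecb3_co.Disproof

open Pool.Agent.Q153.SpanTwo

/-- The set `L` of the problem: the pairs `(s, k)` with `s = 2`, `k ∈ {1, 2}`, or `s = 3`,
`k ∈ {1, 2, 3, 4}`, or `s = 4`, `k ∈ {1, 2, 3, 4, 5, 6, 8}`, or `s ≥ 5`, `1 ≤ k ≤ 3 s - 4`. -/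
def InL (s k : ℕ) : Prop :=
  (s = 2 ∧ (k = 1 ∨ k = 2)) ∨ (s = 3 ∧ 1 ≤ k ∧ k ≤ 4) ∨
    (s = 4 ∧ ((1 ≤ k ∧ k ≤ 6) ∨ k = 8)) ∨ (5 ≤ s ∧ 1 ≤ k ∧ k + 4 ≤ 3 * s)

/-- **Theorem.** For every `s ≥ 5` the value `k = ⌊s ^ 2 / 2⌋` satisfies
`φ_±(ℤ_2 × ℤ_{2k}, [0,s]) = 2`, although `(s, k) ∉ L`. -/
theorem result (s : ℕ) (hs : 5 ≤ s) :
    ¬ InL s (s ^ 2 / 2) ∧ phi (ZMod 2 × ZMod (2 * (s ^ 2 / 2))) s = 2 := by
  have h1 : 3 * s < s ^ 2 / 2 + 4 := by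
    have h2 : 2 * (3 * s) < s ^ 2 + 7 := by nlinarith
    omega
  have hk : 1 ≤ s ^ 2 / 2 := by
    have h2 : 2 ≤ s ^ 2 := by nlinarith
    omega
  refine ⟨?_, ?_⟩
  · unfold InL
    omega
  · rw [phi_eq_two_iff (by norm_num), spans_iff (by norm_num) hk]
    unfold Adm
    rw [if_neg (by rintro ⟨h, -⟩; revert h; decide), show (2 * s + 1) / 2 = s by omega]
    refine ⟨by omega, ?_⟩
    intro m d h3 h4 h5
    have h6 : s ^ 2 / 2 = 2 * m ^ 2 := by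
      rw [h3, mul_pow]; omega
    have : d = 0 := by omega
    subst this
    simp

end Pool.Agent.Results.MP_26ecb3_co.Disproof
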